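import Pool.Agent.helper47.MSW.SpecA
import Pool.Agent.helper47.MSW.SpecC

set_option autoImplicit false

namespace Pool.Agent.MSW

open Equiv Finset Function MeasureTheory Pool.Agent.helper48.PP
open Pool.Agent.DSW (Pr Has GP wt)
open scoped ENNReal Classical

theorem ZBU_bd (hCNT : CNT_stmt) (hGEM : GEM_stmt) (θ : ℝ) (H n : ℕ) (τ : Perm (Fin n))
    (hθ0 : 0 ≤ θ) (hθ1 : θ ≤ 1) (hH : 1 ≤ H) : Zp H (den θ H) τ ≤ ENNReal.ofReal (θ ^ n) := by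
  have hHr : (1 : ℝ) ≤ (H : ℝ) := by exact_mod_cast hH
  have hd0 : 0 ≤ den θ H := by
    unfold den
    positivity
  have hd1 : den θ H ≤ 1 := by
    unfold den
    rw [div_le_one (by positivity)]
    nlinarith
  have h3 : Zp H (den θ H) τ ≤ ∑' w : Pt, ENNReal.ofReal (den θ H) ^ n *
      ((wt H w.1 * ((w.1.choose n : ℕ) : ℝ≥0∞)) * (wt H w.2 * ((w.2.choose n : ℕ) : ℝ≥0∞))) := by
    unfold Zp
    refine ENNReal.tsum_le_tsum fun w => ?_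
    calc wt H w.1 * wt H w.2 * Pm (den θ H) {ω | HP τ ω 0 w}
        ≤ wt H w.1 * wt H w.2 * (ENNReal.ofReal (den θ H) ^ n * (w.1.choose n : ℝ≥0∞) *
          (w.2.choose n : ℝ≥0∞)) := mul_le_mul' le_rfl (hCNT n τ w (den θ H) hd0 hd1)
      _ = _ := by ring
  refine h3.trans ?_
  rw [ENNReal.tsum_mul_left]
  have h5 : ∑' w : Pt, ((wt H w.1 * ((w.1.choose n : ℕ) : ℝ≥0∞)) *
      (wt H w.2 * ((w.2.choose n : ℕ) : ℝ≥0∞))) = (H : ℝ≥0∞) ^ n * (H : ℝ≥0∞) ^ n := by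
    have h6 := ENNReal.tsum_prod (f := fun i j : ℕ => (wt H i * ((i.choose n : ℕ) : ℝ≥0∞)) *
      (wt H j * ((j.choose n : ℕ) : ℝ≥0∞)))
    rw [show (∑' w : Pt, ((wt H w.1 * ((w.1.choose n : ℕ) : ℝ≥0∞)) *
      (wt H w.2 * ((w.2.choose n : ℕ) : ℝ≥0∞)))) = _ from h6]
    simp_rw [ENNReal.tsum_mul_left, ENNReal.tsum_mul_right]
    rw [(hGEM H n hH).1]
  rw [h5, ENNReal.ofReal_pow hθ0, ← mul_pow, ← mul_pow]
  apply le_of_eq
  congr 1
  have h7 : (H : ℝ≥0∞) = ENNReal.ofReal (H : ℝ) := by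
    rw [ENNReal.ofReal_natCast]
  rw [h7, ← ENNReal.ofReal_mul (by positivity), ← ENNReal.ofReal_mul hd0]
  congr 1
  unfold den
  field_simp

theorem ZBU (hFLT : FLT_stmt) (hCNT : CNT_stmt) (hGEM : GEM_stmt) (hGEW : GEW_stmt) : ZBU_stmt := by
  have h1 : ∀ (H : ℕ) (p : ℝ) (X : List Pat), Z H p X = Zp H p (flat X).2 := by
    intro H p X
    unfold Z Zp
    refine tsum_congr fun w => ?_
    have h2 : {ω : Om | HL X ω 0 w} = {ω : Om | HP (flat X).2 ω 0 w} := by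
      ext ω
      exact hFLT.1 X ω 0 w
    rw [h2]
  refine ⟨h1, ?_, ?_⟩
  · intro θ H B hθ0 hθ1 hH
    rw [h1, ← hFLT.2 B]
    exact ZBU_bd hCNT hGEM θ H _ (flat B).2 hθ0 hθ1 hH
  · intro H p X hH
    rw [← (hGEW H hH).2.2.2.2.1]
    unfold Z
    refine ENNReal.tsum_le_tsum fun w => ?_
    calc wt H w.1 * wt H w.2 * Pm p {ω | HL X ω 0 w} ≤ wt H w.1 * wt H w.2 * 1 :=
          mul_le_mul' le_rfl prob_le_one
      _ = wt H w.1 * wt H w.2 := mul_one _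

end Pool.Agent.MSW
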